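import Pool.Agent.Lib_helper32.JO.N0

/-!
# Project JO, part B1, block DIR
-/

set_option autoImplicit false

namespace Pool.Agent.JO

open Complex MeasureTheory Filter Topology
open UpperHalfPlane hiding I
open scoped MatrixGroups ComplexConjugate ENNReal

theorem dir_scale (g : ℝ → ℝ) {l : ℝ} (hl : 0 < l) (ρ : ℝ) :
    ∫ y in Set.Ioi (0 : ℝ), y ^ (ρ - 1) * g (l * y) =
      l ^ (-ρ) * ∫ y in Set.Ioi (0 : ℝ), y ^ (ρ - 1) * g y := by
  have h := integral_comp_mul_left_Ioi (fun x => (x / l) ^ (ρ - 1) * g x) 0 hl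
  simp only [mul_zero] at h
  have e1 : ∫ y in Set.Ioi (0 : ℝ), y ^ (ρ - 1) * g (l * y) =
      ∫ y in Set.Ioi (0 : ℝ), (l * y / l) ^ (ρ - 1) * g (l * y) := by
    apply setIntegral_congr_fun measurableSet_Ioi
    intro y _
    simp only
    rw [mul_div_cancel_left₀ _ hl.ne']
  rw [e1, h, smul_eq_mul, ← integral_const_mul, ← integral_const_mul]
  apply setIntegral_congr_fun measurableSet_Ioi
  intro x hx
  have hx0 : (0 : ℝ) < x := hx
  simp only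
  rw [Real.div_rpow hx0.le hl.le, Real.rpow_neg hl.le, Real.rpow_sub_one hl.ne']
  field_simp

theorem dir_scale_int {W : ℝ → ℂ} {ρ : ℝ}
    (hs : IntegrableOn (fun y => ‖W y‖ ^ 2 * y ^ (ρ - 1)) (Set.Ioi 0)) {l : ℝ} (hl : 0 < l) :
    IntegrableOn (fun y => ‖W (l * y)‖ ^ 2 * y ^ (ρ - 1)) (Set.Ioi 0) := by
  have h1 : IntegrableOn (fun x => (l ^ (ρ - 1))⁻¹ * (‖W x‖ ^ 2 * x ^ (ρ - 1)))
      (Set.Ioi (l * 0)) := by
    rw [mul_zero]
    exact hs.const_mul _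
  have h2 := (integrableOn_Ioi_comp_mul_left_iff
    (fun x => (l ^ (ρ - 1))⁻¹ * (‖W x‖ ^ 2 * x ^ (ρ - 1))) 0 hl).mpr h1
  refine h2.congr_fun ?_ measurableSet_Ioi
  intro y hy
  have hy0 : (0 : ℝ) < y := hy
  simp only
  rw [Real.mul_rpow hl.le hy0.le]
  have : l ^ (ρ - 1) ≠ 0 := (Real.rpow_pos_of_pos hl _).ne'
  field_simp

theorem dir_cont {W : ℝ → ℂ} (hc : ContinuousOn W (Set.Ioi 0)) (ε : ℝ) (w : ℍ) :
    ContinuousOn (fLoc W ε w) (Set.Ioi 0) := by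
  unfold fLoc
  apply ContinuousOn.mul
  · apply ContinuousOn.mul hc
    apply continuous_conj.comp_continuousOn
    apply hc.comp (by fun_prop)
    intro y hy
    exact mul_pos w.im_pos hy
  · fun_prop

theorem dir_norm {W : ℝ → ℂ} (ε : ℝ) (w : ℍ) (y : ℝ) :
    ‖fLoc W ε w y‖ = ‖W y‖ * ‖W (w.im * y)‖ := by
  rw [fLoc, norm_mul, norm_mul, RCLike.norm_conj]
  have : ‖cexp (-(2 * Real.pi * I * (ε * w.re * y : ℝ)))‖ = 1 := by
    rw [Complex.norm_exp]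
    simp
  rw [this, mul_one]

theorem fLoc_conv_pr {W : ℝ → ℂ} (hc : ContinuousOn W (Set.Ioi 0))
    (hs : ∀ σ : ℝ, 0 < σ → IntegrableOn (fun y => ‖W y‖ ^ 2 * y ^ (σ - 1)) (Set.Ioi 0)) (ε : ℝ)
    (w : ℍ) {s : ℂ} (h : s.re < 0) : MellinConvergent (fLoc W ε w) (-s) := by
  have h1 := hs (-s.re) (by linarith)
  have h2 := dir_scale_int h1 w.im_pos
  rw [MellinConvergent]
  apply Integrable.mono' (h1.add h2)
  · apply ContinuousOn.aestronglyMeasurable _ measurableSet_Ioi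
    have e : ContinuousOn (fun t : ℝ => (t : ℂ) ^ (-s - 1)) (Set.Ioi 0) := by
      intro t ht
      exact (Complex.continuousAt_ofReal_cpow_const t (-s - 1)
        (Or.inr (ne_of_gt ht))).continuousWithinAt
    exact e.smul (dir_cont hc ε w)
  · refine (ae_restrict_iff' measurableSet_Ioi).mpr (Eventually.of_forall ?_)
    intro t ht
    have ht0 : (0 : ℝ) < t := ht
    rw [norm_smul, Complex.norm_cpow_eq_rpow_re_of_pos ht0, dir_norm]
    have e1 : (-s - 1).re = -s.re - 1 := by simp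
    rw [e1]
    simp only [Pi.add_apply]
    have h3 : 0 < t ^ (-s.re - 1) := Real.rpow_pos_of_pos ht0 _
    have h4 : ‖W t‖ * ‖W (w.im * t)‖ ≤ ‖W t‖ ^ 2 + ‖W (w.im * t)‖ ^ 2 := by
      nlinarith [sq_nonneg (‖W t‖ - ‖W (w.im * t)‖), sq_nonneg (‖W t‖),
        sq_nonneg (‖W (w.im * t)‖)]
    calc t ^ (-s.re - 1) * (‖W t‖ * ‖W (w.im * t)‖) ≤
        t ^ (-s.re - 1) * (‖W t‖ ^ 2 + ‖W (w.im * t)‖ ^ 2) :=
          mul_le_mul_of_nonneg_left h4 h3.le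
      _ = _ := by ring

/-- a nontrivial `W` has a positive integral -/
theorem dir_pos {W : ℝ → ℂ} (hc : ContinuousOn W (Set.Ioi 0)) {ρ : ℝ}
    (hs : IntegrableOn (fun y => ‖W y‖ ^ 2 * y ^ (ρ - 1)) (Set.Ioi 0))
    (hW : ¬ ∀ y : ℝ, 0 < y → W y = 0) :
    0 < ∫ y in Set.Ioi (0 : ℝ), y ^ (ρ - 1) * ‖W y‖ ^ 2 := by
  have hs' : IntegrableOn (fun y : ℝ => y ^ (ρ - 1) * ‖W y‖ ^ 2) (Set.Ioi 0) := by
    refine hs.congr_fun (fun y _ => ?_) measurableSet_Ioi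
    simp only
    ring
  have hnn : 0 ≤ᵐ[volume.restrict (Set.Ioi (0 : ℝ))] (fun y : ℝ => y ^ (ρ - 1) * ‖W y‖ ^ 2) := by
    refine (ae_restrict_iff' measurableSet_Ioi).mpr (Eventually.of_forall ?_)
    intro y hy
    have hy0 : (0 : ℝ) < y := hy
    simp only [Pi.zero_apply]
    positivity
  have h0 : 0 ≤ ∫ y in Set.Ioi (0 : ℝ), y ^ (ρ - 1) * ‖W y‖ ^ 2 :=
    integral_nonneg_of_ae hnn
  rcases h0.eq_or_lt' with h | h
  · exfalso
    apply hW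
    have h1 := (setIntegral_eq_zero_iff_of_nonneg_ae hnn hs').mp h
    have h2 : Set.EqOn (fun y : ℝ => y ^ (ρ - 1) * ‖W y‖ ^ 2) 0 (Set.Ioi 0) := by
      apply Measure.eqOn_open_of_ae_eq h1 isOpen_Ioi
      · apply ContinuousOn.mul
        · intro t ht
          exact (Real.continuousAt_rpow_const t (ρ - 1)
            (Or.inl (ne_of_gt ht))).continuousWithinAt
        · exact (hc.norm).pow 2
      · exact continuousOn_const
    intro y hy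
    have h3 : y ^ (ρ - 1) * ‖W y‖ ^ 2 = 0 := h2 (Set.mem_Ioi.mpr hy)
    have h4 : y ^ (ρ - 1) ≠ 0 := (Real.rpow_pos_of_pos hy _).ne'
    have h5 : ‖W y‖ ^ 2 = 0 := by
      rcases mul_eq_zero.mp h3 with h6 | h6
      · exact absurd h6 h4
      · exact h6
    exact norm_eq_zero.mp (pow_eq_zero_iff two_ne_zero |>.mp h5)
  · exact h

/-- the Dirichlet series converges -/
theorem dir_sum {W : ℝ → ℂ} (hc : ContinuousOn W (Set.Ioi 0))
    (hs : ∀ σ : ℝ, 0 < σ → IntegrableOn (fun y => ‖W y‖ ^ 2 * y ^ (σ - 1)) (Set.Ioi 0))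
    {N : ℕ} [NeZero N] {r : ℤ → ℂ} (P : ℤ → Prop) [DecidablePred P] (hP : ∀ n, P n → n ≠ 0)
    {B d : ℝ} (hd : 0 < d)
    (hb : ∀ (F : Finset ℤ), (∀ n ∈ F, P n) → ∀ y : ℝ, 0 < y →
      ∑ n ∈ F, ‖r n‖ ^ 2 * ‖W (|(n : ℝ)| / N * y)‖ ^ 2 ≤ B * Real.exp (-(d * y)))
    (hW : ¬ ∀ y : ℝ, 0 < y → W y = 0) {ρ : ℝ} (hρ : 0 < ρ) :
    Summable (fun n : ℤ => if P n then ‖r n‖ ^ 2 * (|(n : ℝ)| / N) ^ (-ρ) else 0) := by
  have hJ := dir_pos hc (hs ρ hρ) hW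
  have hN : (0 : ℝ) < N := by exact_mod_cast Nat.pos_of_ne_zero (NeZero.ne N)
  obtain ⟨J, hJd⟩ : ∃ J : ℝ, J = ∫ y in Set.Ioi (0 : ℝ), y ^ (ρ - 1) * ‖W y‖ ^ 2 := ⟨_, rfl⟩
  rw [← hJd] at hJ
  have hbi : IntegrableOn (fun y : ℝ => y ^ (ρ - 1) * (B * Real.exp (-(d * y)))) (Set.Ioi 0) := by
    have h1 := (integrableOn_rpow_mul_exp_neg_mul_rpow (p := 1) (s := ρ - 1) (b := d)
      (by linarith) one_pos hd).const_mul B
    refine IntegrableOn.congr_fun h1 (fun y _ => ?_) measurableSet_Ioi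
    rw [Real.rpow_one, neg_mul]
    ring
  obtain ⟨K, hK⟩ : ∃ K : ℝ, K = ∫ y in Set.Ioi (0 : ℝ), y ^ (ρ - 1) * (B * Real.exp (-(d * y))) :=
    ⟨_, rfl⟩
  apply summable_of_sum_le (c := K / J)
  · intro n
    show 0 ≤ if P n then ‖r n‖ ^ 2 * (|(n : ℝ)| / N) ^ (-ρ) else 0
    split_ifs
    · positivity
    · exact le_refl _
  · intro F
    rw [le_div_iff₀ hJ, ← Finset.sum_filter, Finset.sum_mul, hK]
    have hint : ∀ n ∈ F.filter P, IntegrableOn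
        (fun y : ℝ => y ^ (ρ - 1) * (‖r n‖ ^ 2 * ‖W (|(n : ℝ)| / N * y)‖ ^ 2)) (Set.Ioi 0) := by
      intro n hn
      rw [Finset.mem_filter] at hn
      have hn0 : (0 : ℝ) < |(n : ℝ)| := abs_pos.mpr (by exact_mod_cast hP n hn.2)
      have h1 := (dir_scale_int (hs ρ hρ) (div_pos hn0 hN)).const_mul (‖r n‖ ^ 2)
      refine IntegrableOn.congr_fun h1 (fun y _ => ?_) measurableSet_Ioi
      ring
    have h1 : ∑ n ∈ F.filter P, ‖r n‖ ^ 2 * (|(n : ℝ)| / N) ^ (-ρ) * J =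
        ∫ y in Set.Ioi (0 : ℝ), y ^ (ρ - 1) *
          ∑ n ∈ F.filter P, ‖r n‖ ^ 2 * ‖W (|(n : ℝ)| / N * y)‖ ^ 2 := by
      simp only [Finset.mul_sum]
      rw [integral_finsetSum _ hint]
      apply Finset.sum_congr rfl
      intro n hn
      rw [Finset.mem_filter] at hn
      have hn0 : (0 : ℝ) < |(n : ℝ)| := abs_pos.mpr (by exact_mod_cast hP n hn.2)
      have h2 := dir_scale (fun y => ‖W y‖ ^ 2) (div_pos hn0 hN) ρ
      rw [mul_assoc, hJd, ← h2, ← integral_const_mul]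
      apply setIntegral_congr_fun measurableSet_Ioi
      intro y _
      simp only
      ring
    rw [h1]
    apply setIntegral_mono_on _ hbi measurableSet_Ioi
    · intro y hy
      have hy0 : (0 : ℝ) < y := hy
      apply mul_le_mul_of_nonneg_left _ (Real.rpow_nonneg hy0.le _)
      exact hb (F.filter P) (fun n hn => (Finset.mem_filter.mp hn).2) y hy0
    · simp only [Finset.mul_sum]
      exact integrable_finsetSum _ hint

theorem dir_I (W : ℝ → ℂ) (ε y : ℝ) :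
    fLoc W ε UpperHalfPlane.I y = ((‖W y‖ ^ 2 : ℝ) : ℂ) := by
  rw [fLoc, UpperHalfPlane.I_im, UpperHalfPlane.I_re, one_mul, Complex.mul_conj,
    Complex.normSq_eq_norm_sq]
  simp

theorem dir_triv {W : ℝ → ℂ} (hW : ∀ y : ℝ, 0 < y → W y = 0) (ε : ℝ) (w : ℍ) {y : ℝ}
    (hy : 0 < y) : fLoc W ε w y = 0 := by
  rw [fLoc, hW y hy, zero_mul, zero_mul]

theorem dir_triv_mel {W : ℝ → ℂ} (hW : ∀ y : ℝ, 0 < y → W y = 0) (ε : ℝ) (w : ℍ) (s : ℂ) :
    mellin (fLoc W ε w) s = 0 := by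
  rw [mellin]
  have : ∀ t ∈ Set.Ioi (0 : ℝ), (t : ℂ) ^ (s - 1) • fLoc W ε w t = 0 := by
    intro t ht
    rw [dir_triv hW ε w ht, smul_zero]
  rw [setIntegral_congr_fun measurableSet_Ioi this]
  simp

/-- the term of index `n` -/
theorem dir_term {g : ℝ → ℂ} {s : ℂ} (hg : MellinConvergent g (-s)) {l : ℝ} (hl : 0 < l) (a : ℝ)
    (ha : 0 ≤ a) :
    IntegrableOn (fun y : ℝ => (y : ℂ) ^ (-s - 1) • ((a : ℂ) * g (l * y))) (Set.Ioi 0) ∧
    ∫ y in Set.Ioi (0 : ℝ), (y : ℂ) ^ (-s - 1) • ((a : ℂ) * g (l * y)) =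
      (a : ℂ) * (l : ℂ) ^ s * mellin g (-s) ∧
    ∫ y in Set.Ioi (0 : ℝ), ‖(y : ℂ) ^ (-s - 1) • ((a : ℂ) * g (l * y))‖ =
      a * l ^ (-(-s.re)) * ∫ y in Set.Ioi (0 : ℝ), y ^ (-s.re - 1) * ‖g y‖ := by
  refine ⟨?_, ?_, ?_⟩
  · have h1 := (MellinConvergent.comp_mul_left (f := g) (s := -s) hl).mpr hg
    rw [MellinConvergent] at h1
    have h2 := h1.const_mul (a : ℂ)
    refine IntegrableOn.congr_fun h2 (fun y _ => ?_) measurableSet_Ioi
    simp only [smul_eq_mul]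
    ring
  · have h1 := mellin_comp_mul_left g (-s) hl
    rw [neg_neg, smul_eq_mul, mellin] at h1
    rw [mul_assoc, ← h1, ← integral_const_mul]
    apply setIntegral_congr_fun measurableSet_Ioi
    intro y _
    simp only [smul_eq_mul]
    ring
  · have h1 := dir_scale (fun y => ‖g y‖) hl (-s.re)
    rw [mul_assoc, ← h1, ← integral_const_mul]
    apply setIntegral_congr_fun measurableSet_Ioi
    intro y hy
    have hy0 : (0 : ℝ) < y := hy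
    simp only
    rw [norm_smul, norm_mul, Complex.norm_cpow_eq_rpow_re_of_pos hy0, Complex.norm_real,
      Real.norm_eq_abs, abs_of_nonneg ha]
    have e1 : (-s - 1).re = -s.re - 1 := by simp
    rw [e1]
    ring

/-- one half of the sum -/
theorem dir_half {W : ℝ → ℂ} (hc : ContinuousOn W (Set.Ioi 0))
    (hs : ∀ σ : ℝ, 0 < σ → IntegrableOn (fun y => ‖W y‖ ^ 2 * y ^ (σ - 1)) (Set.Ioi 0))
    {N : ℕ} [NeZero N] {r : ℤ → ℂ} (P : ℤ → Prop) [DecidablePred P] (hP : ∀ n, P n → n ≠ 0)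
    {B d : ℝ} (hd : 0 < d)
    (hb : ∀ (F : Finset ℤ), (∀ n ∈ F, P n) → ∀ y : ℝ, 0 < y →
      ∑ n ∈ F, ‖r n‖ ^ 2 * ‖W (|(n : ℝ)| / N * y)‖ ^ 2 ≤ B * Real.exp (-(d * y)))
    (ε : ℝ) (w : ℍ) {s : ℂ} (h : s.re < 0) :
    Summable (fun n : ℤ => (if P n then ‖r n‖ ^ 2 * (|(n : ℝ)| / N) ^ (-(-s.re)) else 0) *
      ∫ y in Set.Ioi (0 : ℝ), y ^ (-s.re - 1) * ‖fLoc W ε w y‖) ∧
    HasSum (fun n : ℤ => (if P n then ((‖r n‖ ^ 2 : ℝ) : ℂ) * (((|(n : ℝ)| / N : ℝ)) : ℂ) ^ s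
      else 0) * mellin (fLoc W ε w) (-s))
      ((∑' n : ℤ, if P n then ((‖r n‖ ^ 2 : ℝ) : ℂ) * (((|(n : ℝ)| / N : ℝ)) : ℂ) ^ s else 0) *
        mellin (fLoc W ε w) (-s)) := by
  have hN : (0 : ℝ) < N := by exact_mod_cast Nat.pos_of_ne_zero (NeZero.ne N)
  by_cases hW : ∀ y : ℝ, 0 < y → W y = 0
  · constructor
    · have : ∫ y in Set.Ioi (0 : ℝ), y ^ (-s.re - 1) * ‖fLoc W ε w y‖ = 0 := by
        have h1 : ∀ t ∈ Set.Ioi (0 : ℝ), t ^ (-s.re - 1) * ‖fLoc W ε w t‖ = 0 := by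
          intro t ht
          rw [dir_triv hW ε w ht, norm_zero, mul_zero]
        rw [setIntegral_congr_fun measurableSet_Ioi h1]
        simp
      simp only [this, mul_zero]
      exact summable_zero
    · rw [dir_triv_mel hW]
      simp only [mul_zero]
      exact hasSum_zero
  · have h1 := dir_sum hc hs P hP hd hb hW (show 0 < -s.re by linarith)
    refine ⟨h1.mul_right _, ?_⟩
    apply HasSum.mul_right
    apply Summable.hasSum
    apply Summable.of_norm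
    refine h1.congr (fun n => ?_)
    split_ifs with hn
    · have hn0 : (0 : ℝ) < |(n : ℝ)| / N :=
        div_pos (abs_pos.mpr (by exact_mod_cast hP n hn)) hN
      rw [norm_mul, Complex.norm_cpow_eq_rpow_re_of_pos hn0, Complex.norm_real,
        Real.norm_eq_abs, abs_of_nonneg (show (0 : ℝ) ≤ ‖r n‖ ^ 2 by positivity), neg_neg]
    · rw [norm_zero]

theorem dir_mel_pr {Wp Wm : ℝ → ℂ} (cp : ContinuousOn Wp (Set.Ioi 0))
    (cm : ContinuousOn Wm (Set.Ioi 0))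
    (sqp : ∀ σ : ℝ, 0 < σ → IntegrableOn (fun y => ‖Wp y‖ ^ 2 * y ^ (σ - 1)) (Set.Ioi 0))
    (sqm : ∀ σ : ℝ, 0 < σ → IntegrableOn (fun y => ‖Wm y‖ ^ 2 * y ^ (σ - 1)) (Set.Ioi 0))
    {N : ℕ} [NeZero N] {r : ℤ → ℂ} (h0 : r 0 = 0) {c : ℍ → ℝ → ℂ}
    (hc : ∀ (w : ℍ) (y : ℝ), 0 < y →
      (Summable fun n : ℤ => ‖((‖r n‖ ^ 2 : ℝ) : ℂ) * fL Wp Wm w n (|(n : ℝ)| * y / N)‖) ∧
      c w y = ∑' n : ℤ, ((‖r n‖ ^ 2 : ℝ) : ℂ) * fL Wp Wm w n (|(n : ℝ)| * y / N))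
    (hb : ∃ B : ℝ, ∀ y, 0 < y → ‖c UpperHalfPlane.I y‖ ≤ B)
    (hd : ∃ C d : ℝ, 0 < d ∧ ∀ y, 1 ≤ y → ‖c UpperHalfPlane.I y‖ ≤ C * Real.exp (-(d * y))) :
    ∃ Dp Dm : ℂ → ℂ, ∀ (w : ℍ) (s : ℂ), s.re < 0 →
      mellin (c w) (-s) = Dp s * mellin (fLoc Wp 1 w) (-s) + Dm s * mellin (fLoc Wm (-1) w) (-s) := by
  have hN : (0 : ℝ) < N := by exact_mod_cast Nat.pos_of_ne_zero (NeZero.ne N)
  -- the bound at `w = i`
  obtain ⟨B₀, d, hd0, hB₀⟩ : ∃ B₀ d : ℝ, 0 < d ∧ ∀ y, 0 < y →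
      ‖c UpperHalfPlane.I y‖ ≤ B₀ * Real.exp (-(d * y)) := by
    obtain ⟨B, hB⟩ := hb
    obtain ⟨C, d, hd0, hC⟩ := hd
    refine ⟨max (B * Real.exp d) C, d, hd0, fun y hy => ?_⟩
    have he : 0 < Real.exp (-(d * y)) := Real.exp_pos _
    have hB0 : 0 ≤ B := le_trans (norm_nonneg _) (hB y hy)
    rcases le_total 1 y with h1 | h1
    · refine le_trans (hC y h1) ?_
      exact mul_le_mul_of_nonneg_right (le_max_right _ _) he.le
    · refine le_trans (hB y hy) ?_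
      have h2 : 1 ≤ Real.exp d * Real.exp (-(d * y)) := by
        rw [← Real.exp_add]
        apply Real.one_le_exp
        nlinarith
      calc B = B * 1 := (mul_one B).symm
        _ ≤ B * (Real.exp d * Real.exp (-(d * y))) := mul_le_mul_of_nonneg_left h2 hB0
        _ = (B * Real.exp d) * Real.exp (-(d * y)) := by ring
        _ ≤ _ := mul_le_mul_of_nonneg_right (le_max_left _ _) he.le
  -- the real terms at `w = i`
  obtain ⟨tt, htt⟩ : ∃ tt : ℝ → ℤ → ℝ, tt = fun y n => ‖r n‖ ^ 2 *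
    (if 0 < n then ‖Wp (|(n : ℝ)| / N * y)‖ ^ 2 else ‖Wm (|(n : ℝ)| / N * y)‖ ^ 2) := ⟨_, rfl⟩
  have htt0 : ∀ y n, 0 ≤ tt y n := by
    intro y n
    rw [htt]
    simp only
    split_ifs <;> positivity
  have hterm : ∀ (y : ℝ) (n : ℤ), ((‖r n‖ ^ 2 : ℝ) : ℂ) *
      fL Wp Wm UpperHalfPlane.I n (|(n : ℝ)| * y / N) = ((tt y n : ℝ) : ℂ) := by
    intro y n
    have e : |(n : ℝ)| * y / N = |(n : ℝ)| / N * y := by ring
    rw [htt, fL, dir_I, dir_I, e]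
    simp only
    split_ifs <;> push_cast <;> rfl
  have hfin : ∀ (F : Finset ℤ) (y : ℝ), 0 < y → ∑ n ∈ F, tt y n ≤ B₀ * Real.exp (-(d * y)) := by
    intro F y hy
    obtain ⟨h1, h2⟩ := hc UpperHalfPlane.I y hy
    simp only [hterm] at h1 h2
    have h3 : Summable (tt y) := by
      refine h1.congr (fun n => ?_)
      rw [Complex.norm_real, Real.norm_eq_abs, abs_of_nonneg (htt0 y n)]
    have h4 : ‖c UpperHalfPlane.I y‖ = ∑' n, tt y n := by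
      rw [h2, ← Complex.ofReal_tsum, Complex.norm_real, Real.norm_eq_abs,
        abs_of_nonneg (tsum_nonneg (htt0 y))]
    refine le_trans ?_ (hB₀ y hy)
    rw [h4]
    exact h3.sum_le_tsum F (fun n _ => htt0 y n)
  have hbp : ∀ (F : Finset ℤ), (∀ n ∈ F, 0 < n) → ∀ y : ℝ, 0 < y →
      ∑ n ∈ F, ‖r n‖ ^ 2 * ‖Wp (|(n : ℝ)| / N * y)‖ ^ 2 ≤ B₀ * Real.exp (-(d * y)) := by
    intro F hF y hy
    refine le_trans (le_of_eq ?_) (hfin F y hy)
    apply Finset.sum_congr rfl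
    intro n hn
    rw [htt]
    simp only
    rw [if_pos (hF n hn)]
  have hbm : ∀ (F : Finset ℤ), (∀ n ∈ F, n < 0) → ∀ y : ℝ, 0 < y →
      ∑ n ∈ F, ‖r n‖ ^ 2 * ‖Wm (|(n : ℝ)| / N * y)‖ ^ 2 ≤ B₀ * Real.exp (-(d * y)) := by
    intro F hF y hy
    refine le_trans (le_of_eq ?_) (hfin F y hy)
    apply Finset.sum_congr rfl
    intro n hn
    rw [htt]
    simp only
    rw [if_neg (by have := hF n hn; omega)]
  refine ⟨fun s => ∑' n : ℤ, if 0 < n then ((‖r n‖ ^ 2 : ℝ) : ℂ) *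
      (((|(n : ℝ)| / N : ℝ)) : ℂ) ^ s else 0,
    fun s => ∑' n : ℤ, if n < 0 then ((‖r n‖ ^ 2 : ℝ) : ℂ) *
      (((|(n : ℝ)| / N : ℝ)) : ℂ) ^ s else 0, ?_⟩
  intro w s hs
  obtain ⟨hp1, hp2⟩ := dir_half cp sqp (N := N) (r := r) (fun n => 0 < n)
    (fun n hn => by omega) hd0 hbp 1 w hs
  obtain ⟨hm1, hm2⟩ := dir_half cm sqm (N := N) (r := r) (fun n => n < 0)
    (fun n hn => by omega) hd0 hbm (-1) w hs
  -- the terms
  obtain ⟨F, hF⟩ : ∃ F : ℤ → ℝ → ℂ, F = fun (n : ℤ) (y : ℝ) => (y : ℂ) ^ (-s - 1) •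
    (((‖r n‖ ^ 2 : ℝ) : ℂ) * fL Wp Wm w n (|(n : ℝ)| * y / N)) := ⟨_, rfl⟩
  have hall : ∀ n : ℤ, IntegrableOn (F n) (Set.Ioi 0) ∧
      ∫ y in Set.Ioi (0 : ℝ), F n y =
        (if 0 < n then ((‖r n‖ ^ 2 : ℝ) : ℂ) * (((|(n : ℝ)| / N : ℝ)) : ℂ) ^ s else 0) *
          mellin (fLoc Wp 1 w) (-s) +
        (if n < 0 then ((‖r n‖ ^ 2 : ℝ) : ℂ) * (((|(n : ℝ)| / N : ℝ)) : ℂ) ^ s else 0) *
          mellin (fLoc Wm (-1) w) (-s) ∧
      ∫ y in Set.Ioi (0 : ℝ), ‖F n y‖ =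
        (if 0 < n then ‖r n‖ ^ 2 * (|(n : ℝ)| / N) ^ (-(-s.re)) else 0) *
          (∫ y in Set.Ioi (0 : ℝ), y ^ (-s.re - 1) * ‖fLoc Wp 1 w y‖) +
        (if n < 0 then ‖r n‖ ^ 2 * (|(n : ℝ)| / N) ^ (-(-s.re)) else 0) *
          (∫ y in Set.Ioi (0 : ℝ), y ^ (-s.re - 1) * ‖fLoc Wm (-1) w y‖) := by
    intro n
    rcases lt_trichotomy n 0 with hn | hn | hn
    · have hl : (0 : ℝ) < |(n : ℝ)| / N :=
        div_pos (abs_pos.mpr (by exact_mod_cast hn.ne)) hN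
      obtain ⟨t1, t2, t3⟩ := dir_term (fLoc_conv_pr cm sqm (-1) w hs) hl (‖r n‖ ^ 2)
        (by positivity)
      have e : F n = fun y : ℝ => (y : ℂ) ^ (-s - 1) • (((‖r n‖ ^ 2 : ℝ) : ℂ) *
          fLoc Wm (-1) w (|(n : ℝ)| / N * y)) := by
        rw [hF]
        funext y
        simp only
        have e2 : |(n : ℝ)| * y / N = |(n : ℝ)| / N * y := by ring
        rw [fL, if_neg (by omega), e2]
      rw [e, if_neg (by omega), if_pos hn, if_neg (by omega), if_pos hn, zero_mul, zero_mul,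
        zero_add, zero_add]
      exact ⟨t1, t2, t3⟩
    · subst hn
      have e : F 0 = fun _ : ℝ => (0 : ℂ) := by
        rw [hF]
        funext y
        simp only
        rw [h0]
        simp
      rw [e]
      simp
    · have hl : (0 : ℝ) < |(n : ℝ)| / N :=
        div_pos (abs_pos.mpr (by exact_mod_cast hn.ne')) hN
      obtain ⟨t1, t2, t3⟩ := dir_term (fLoc_conv_pr cp sqp 1 w hs) hl (‖r n‖ ^ 2)
        (by positivity)
      have e : F n = fun y : ℝ => (y : ℂ) ^ (-s - 1) • (((‖r n‖ ^ 2 : ℝ) : ℂ) *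
          fLoc Wp 1 w (|(n : ℝ)| / N * y)) := by
        rw [hF]
        funext y
        simp only
        have e2 : |(n : ℝ)| * y / N = |(n : ℝ)| / N * y := by ring
        rw [fL, if_pos hn, e2]
      rw [e, if_pos hn, if_neg (by omega), if_pos hn, if_neg (by omega), zero_mul, zero_mul,
        add_zero, add_zero]
      exact ⟨t1, t2, t3⟩
  have hsum := hasSum_integral_of_summable_integral_norm
    (μ := volume.restrict (Set.Ioi (0 : ℝ))) (F := F) (fun n => (hall n).1)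
    ((hp1.add hm1).congr (fun n => (hall n).2.2.symm))
  have hmel : ∫ y in Set.Ioi (0 : ℝ), ∑' n, F n y = mellin (c w) (-s) := by
    rw [mellin]
    apply setIntegral_congr_fun measurableSet_Ioi
    intro y hy
    have hy0 : (0 : ℝ) < y := hy
    simp only [hF]
    rw [(hc w y hy0).2, tsum_const_smul'']
  rw [hmel] at hsum
  have hsum2 := hp2.add hm2
  have e := funext (fun n => (hall n).2.1)
  rw [e] at hsum
  exact hsum.unique hsum2

end Pool.Agent.JO
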